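import Pool.Agent.Helper4.TH.StD

/-!
# Project TH, module Uni: a symbol with zero plane functions is constant
-/

set_option autoImplicit false

namespace Pool.Agent.Helper39.TH

open Pool.Agent.Helper4.TH Pool.Agent.Helper93.TLH
open Pool.Agent.Helper14.W5 (e5)
open Pool.Agent.Helper14.CV (Homog EqC act Tl StFar StFex)

private lemma un1 (n : ℕ) {a b c d : ℤ} (h : HTy a b (5 * c) d) :
    IsUnit (a : ZMod (5 ^ n)) ∧ IsUnit (d : ZMod (5 ^ n)) := by
  have key : ∀ k : ℤ, IsCoprime k 5 → IsUnit (k : ZMod (5 ^ n)) := by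
    intro k hk
    rw [ZMod.coe_int_isUnit_iff_isCoprime]
    push_cast
    exact IsCoprime.pow_left hk.symm
  rcases h with ⟨h, _⟩ | ⟨h, _⟩
  · exact ⟨key a ⟨d, -(b * c), by linear_combination h⟩, key d ⟨a, -(b * c), by linear_combination h⟩⟩
  · exact ⟨key a ⟨-2 * d, 1 + 2 * b * c, by linear_combination (-2) * h⟩,
      key d ⟨-2 * a, 1 + 2 * b * c, by linear_combination (-2) * h⟩⟩

private lemma dvd5' {n : ℤ} : (5 : ℤ) ∣ n ↔ (n : ZMod 5) = 0 :=
  (ZMod.intCast_zmod_eq_zero_iff_dvd n 5).symm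

private lemma cls6 : ∀ r s : ZMod 5,
    r = 0 ∨ s = 0 ∨ r - s = 0 ∨ r + s = 0 ∨ r - 2 * s = 0 ∨ 2 * r - s = 0 := by decide

/-- UNI. -/
theorem hUni (he : TEdg) (hp : TPlH) (hf : StFar) : TUni := by
  have _ := hp
  intro R _ r s G hG hz
  have key : ∀ a b c d : ℤ, HTy a b (5 * c) d →
      G a (5 * c) = G b d ∧ G (a + 2 * b) (5 * c + 2 * d) = G b d := by
    intro a b c d h
    have ha : IsUnit (a : ZMod (5 ^ r)) := (un1 r h).1
    have hd : IsUnit (d : ZMod (5 ^ s)) := (un1 s h).2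
    have hp : PlH a b c d ((b : ZMod (5 ^ r)) * (a : ZMod (5 ^ r))⁻¹) ((c : ZMod (5 ^ s)) * (d : ZMod (5 ^ s))⁻¹) := by
      refine ⟨h, ?_, ?_⟩
      · rw [mul_assoc, ZMod.inv_mul_of_unit _ ha, mul_one]
      · rw [mul_assoc, ZMod.inv_mul_of_unit _ hd, mul_one]
    have z0 := congrFun (congrFun (hz 0) ((b : ZMod (5 ^ r)) * (a : ZMod (5 ^ r))⁻¹)) ((c : ZMod (5 ^ s)) * (d : ZMod (5 ^ s))⁻¹)
    have z1 := congrFun (congrFun (hz 1) ((b : ZMod (5 ^ r)) * (a : ZMod (5 ^ r))⁻¹)) ((c : ZMod (5 ^ s)) * (d : ZMod (5 ^ s))⁻¹)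
    have k0 := he R _ r s G hG 1 0 0 1 (Or.inl one_ne_zero) (Or.inr one_ne_zero) _ _ a b c d hp
    have k1 := he R _ r s G hG 1 2 0 1 (Or.inl one_ne_zero) (Or.inr one_ne_zero) _ _ a b c d hp
    have z0' : edgeH 1 0 0 1 G ((b : ZMod (5 ^ r)) * (a : ZMod (5 ^ r))⁻¹) ((c : ZMod (5 ^ s)) * (d : ZMod (5 ^ s))⁻¹) = 0 := z0
    have z1' : edgeH 1 2 0 1 G ((b : ZMod (5 ^ r)) * (a : ZMod (5 ^ r))⁻¹) ((c : ZMod (5 ^ s)) * (d : ZMod (5 ^ s))⁻¹) = 0 := z1
    rw [z0'] at k0
    rw [z1'] at k1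
    have e0 : a * 1 + b * 0 = a := by ring
    have e1 : 5 * c * 1 + d * 0 = 5 * c := by ring
    have e2 : a * 0 + b * 1 = b := by ring
    have e3 : 5 * c * 0 + d * 1 = d := by ring
    have e4 : a * 1 + b * 2 = a + 2 * b := by ring
    have e5 : 5 * c * 1 + d * 2 = 5 * c + 2 * d := by ring
    rw [e0, e1, e2, e3] at k0
    rw [e2, e3, e4, e5] at k1
    exact ⟨sub_eq_zero.1 k0.symm, sub_eq_zero.1 k1.symm⟩
  have key1 : ∀ a b c d : ℤ, HTy a b (5 * c) d → G (a + b) (5 * c + d) = G b d := by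
    intro a b c d h
    have h' : HTy a (a + b) (5 * c) (5 * c + d) := by
      rcases h with ⟨h, h2⟩ | ⟨h, h1, h2, h3⟩
      · exact Or.inl ⟨by linear_combination h, h2⟩
      · exact Or.inr ⟨by linear_combination h, h1, h2, dvd_add h2 h3⟩
    rw [← (key a b c d h).1, (key a (a + b) c (5 * c + d) h').1]
  -- homogeneity
  have hsc : ∀ k p t : ℤ, k ≠ 0 → (p ≠ 0 ∨ t ≠ 0) → G (k * p) (k * t) = G p t := fun k p t hk n => hG.1 k p t hk n
  -- edges `(p q; t u)` with `t` even
  have hev : ∀ p q t u : ℤ, p * u - q * t = 1 → (2 : ℤ) ∣ t → G p t = G q u := by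
    intro p q t u h h2
    have n1 : p ≠ 0 ∨ t ≠ 0 := by
      by_contra hcon
      push Not at hcon
      rw [hcon.1, hcon.2] at h
      simp at h
    have n2 : q ≠ 0 ∨ u ≠ 0 := by
      by_contra hcon
      push Not at hcon
      rw [hcon.1, hcon.2] at h
      simp at h
    have hneg : G (-p) (-t) = G p t := by
      have := hsc (-1) p t (by norm_num) n1
      rwa [neg_one_mul, neg_one_mul] at this
    have htwo : G (2 * q) (2 * u) = G q u := hsc 2 q u (by norm_num) n2
    rcases cls6 (t : ZMod 5) (u : ZMod 5) with e | e | e | e | e | e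
    · obtain ⟨c, rfl⟩ := dvd5'.2 e
      exact (key p q c u (Or.inl ⟨by linear_combination h, h2⟩)).1
    · obtain ⟨c, rfl⟩ := dvd5'.2 e
      have hh : HTy (2 * q) (-p) (5 * (2 * c)) (-t) :=
        Or.inr ⟨by linear_combination 2 * h, ⟨q, rfl⟩, ⟨5 * c, by ring⟩, (dvd_neg).2 h2⟩
      have k := (key (2 * q) (-p) (2 * c) (-t) hh).1
      have g1 : 5 * (2 * c) = 2 * (5 * c) := by ring
      rw [g1, htwo, hneg] at k
      exact k.symm
    · have : (5 : ℤ) ∣ t - u := dvd5'.2 (by push_cast; exact e)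
      obtain ⟨c, hc⟩ := this
      have hh : HTy (2 * p - 2 * q) (-p + 2 * q) (5 * (2 * c)) (-t + 2 * u) := by
        refine Or.inr ⟨?_, ⟨p - q, by ring⟩, ⟨5 * c, by ring⟩, ?_⟩
        · linear_combination 2 * h + 2 * (-p + 2 * q) * hc
        · exact dvd_add ((dvd_neg).2 h2) ⟨u, rfl⟩
      have k1 := key1 _ _ _ _ hh
      have k2 := (key _ _ _ _ hh).2
      have g1 : 2 * p - 2 * q + (-p + 2 * q) = p := by ring
      have g2 : 5 * (2 * c) + (-t + 2 * u) = t := by linear_combination -2 * hc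
      have g3 : 2 * p - 2 * q + 2 * (-p + 2 * q) = 2 * q := by ring
      have g4 : 5 * (2 * c) + 2 * (-t + 2 * u) = 2 * u := by linear_combination -2 * hc
      rw [g1, g2] at k1
      rw [g3, g4, htwo] at k2
      rw [k1, k2]
    · have : (5 : ℤ) ∣ t + u := dvd5'.2 (by push_cast; exact e)
      obtain ⟨c, hc⟩ := this
      have hh : HTy (2 * q + 2 * p) (-p) (5 * (2 * c)) (-t) := by
        refine Or.inr ⟨?_, ⟨q + p, by ring⟩, ⟨5 * c, by ring⟩, (dvd_neg).2 h2⟩
        linear_combination 2 * h - 2 * p * hc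
      have k2 := (key _ _ _ _ hh).2
      have g3 : 2 * q + 2 * p + 2 * -p = 2 * q := by ring
      have g4 : 5 * (2 * c) + 2 * -t = 2 * u := by linear_combination -2 * hc
      rw [g3, g4, htwo, hneg] at k2
      exact k2.symm
    · have : (5 : ℤ) ∣ t - 2 * u := dvd5'.2 (by push_cast; exact e)
      obtain ⟨c, hc⟩ := this
      have h2' : (2 : ℤ) ∣ 5 * c := by
        rw [← hc]
        exact dvd_sub h2 ⟨u, rfl⟩
      have k := (key (p - 2 * q) q c u (Or.inl ⟨by linear_combination h + q * hc, h2'⟩)).2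
      have g1 : p - 2 * q + 2 * q = p := by ring
      have g2 : 5 * c + 2 * u = t := by linear_combination -hc
      rwa [g1, g2] at k
    · have : (5 : ℤ) ∣ 2 * t - u := dvd5'.2 (by push_cast; exact e)
      obtain ⟨c, hc⟩ := this
      have hh : HTy (2 * q + p) (-q - p) (5 * (t - 2 * c)) (-u - t) := by
        refine Or.inl ⟨?_, ?_⟩
        · linear_combination h + (2 * q + 2 * p) * hc
        · exact Dvd.dvd.mul_left (dvd_sub h2 ⟨c, rfl⟩) 5
      have k1 := key1 _ _ _ _ hh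
      have k2 := (key _ _ _ _ hh).2
      have g1 : 2 * q + p + (-q - p) = q := by ring
      have g2 : 5 * (t - 2 * c) + (-u - t) = u := by linear_combination 2 * hc
      have g3 : 2 * q + p + 2 * (-q - p) = -p := by ring
      have g4 : 5 * (t - 2 * c) + 2 * (-u - t) = -t := by linear_combination 2 * hc
      rw [g1, g2] at k1
      rw [g3, g4, hneg] at k2
      rw [k1, k2]
  -- edges with `u` even
  have hev' : ∀ p q t u : ℤ, p * u - q * t = 1 → (2 : ℤ) ∣ u → G p t = G q u := by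
    intro p q t u h h2
    have n1 : p ≠ 0 ∨ t ≠ 0 := by
      by_contra hcon
      push Not at hcon
      rw [hcon.1, hcon.2] at h
      simp at h
    have hneg : G (-p) (-t) = G p t := by
      have := hsc (-1) p t (by norm_num) n1
      rwa [neg_one_mul, neg_one_mul] at this
    have k := hev q (-p) u (-t) (by linear_combination h) h2
    rw [k, hneg]
  refine hf R _ G hG.1 fun p q t u h => ?_
  by_cases ht : (2 : ℤ) ∣ t
  · exact hev p q t u (by linear_combination h) ht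
  · by_cases hu : (2 : ℤ) ∣ u
    · exact hev' p q t u (by linear_combination h) hu
    · have htu : (2 : ℤ) ∣ t + u := by omega
      rw [hev' p (p + q) t (t + u) (by linear_combination h) htu]
      exact hev (p + q) q (t + u) u (by linear_combination h) htu

end Pool.Agent.Helper39.TH

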